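import Pool.Agent.PRT.StmtsD

/-!
# PRT: AVM (helper16, backup)
-/

set_option autoImplicit false

namespace Pool.Agent.PRT.H16

open Set MeasureTheory
open scoped ContDiff

theorem avm (par : ParStmt) : AvmStmt := by
  intro f hf
  obtain ⟨hs, hb⟩ := par f hf
  set G : E → ℝ := fun z : E => ∫ t in (0 : ℝ)..z.2, f (z.1, t) with hG
  let L : E →L[ℝ] E := (ContinuousLinearMap.fst ℝ ℝ ℝ).prod 0
  have hL : ∀ z : E, L z = (z.1, 0) := fun z => by simp [L]
  have hLn : ‖L‖ ≤ 1 := by
    apply ContinuousLinearMap.opNorm_le_bound _ zero_le_one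
    intro z
    rw [hL, one_mul]
    simp only [Prod.norm_def, norm_zero]
    exact max_le (le_max_left _ _) (le_trans (norm_nonneg _) (le_max_left _ _))
  have e : (fun z : E => av f z.1) = (fun y => G (y + ((0 : ℝ), (1 : ℝ)))) ∘ L := by
    funext z
    simp only [Function.comp, hL, hG, av]
    simp
  have hs' : ContDiff ℝ ∞ (fun y => G (y + ((0 : ℝ), (1 : ℝ)))) :=
    hs.comp (contDiff_id.add contDiff_const)
  refine ⟨?_, ?_⟩
  · rw [e]
    exact hs'.comp L.contDiff
  · intro k C hB i hi z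
    rw [e, L.iteratedFDeriv_comp_right hs' z (by exact_mod_cast le_top)]
    rw [iteratedFDeriv_comp_add_right]
    have h1 := hb k C hB i hi (L z + ((0 : ℝ), (1 : ℝ))) (by simp [hL]) (by simp [hL])
    calc _ ≤ ‖iteratedFDeriv ℝ i G (L z + ((0 : ℝ), (1 : ℝ)))‖ * ∏ _j : Fin i, ‖L‖ :=
          ContinuousMultilinearMap.norm_compContinuousLinearMap_le _ _
      _ ≤ ‖iteratedFDeriv ℝ i G (L z + ((0 : ℝ), (1 : ℝ)))‖ * 1 := by
          apply mul_le_mul_of_nonneg_left _ (norm_nonneg _)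
          exact Finset.prod_le_one (fun _ _ => norm_nonneg _) fun _ _ => hLn
      _ ≤ _ := by rw [mul_one]; exact h1

end Pool.Agent.PRT.H16
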