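import Pool.Agent.Helper1_PRT.WND
import Pool.Agent.Helper27_PRT.CRS
import Pool.Agent.Helper7_PRT.LBD
import Pool.Agent.Helper4_PRT.LSP
import Pool.Agent.Helper5_PRT.LOR
import Pool.Agent.Helper76_PRT.CHD
import Pool.Agent.Helper50_PRT.FRB
import Pool.Agent.Helper19_PRT.HMF
import Pool.Agent.Helper8_PRT.MPV
import Pool.Agent.Helper59_PRT.DSP
import Pool.Agent.Helper98_PRT.DFA
import Pool.Agent.Helper14_PRT.DFB
import Pool.Agent.Helper7_PRT.RCP
import Pool.Agent.Helper11_PRT.DTB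
import Pool.Agent.Helper94_PRT.INB
import Pool.Agent.Helper19_PRT.IPL
import Pool.Agent.Helper66_PRT.KGR
import Pool.Agent.Helper41_PRT.NWT
import Pool.Agent.Helper47_PRT.MAT
import Pool.Agent.Helper53_PRT.ITG
import Pool.Agent.Helper75_PRT.DIF
import Pool.Agent.Helper72_PRT.MSP
import Pool.Agent.Helper23_PRT.MEA
import Pool.Agent.Helper53_PRT.DEV
import Pool.Agent.Helper7_PRT.PBD
import Pool.Agent.Helper94_PRT.GLF
import Pool.Agent.Helper1_PRT.BOA
import Pool.Agent.Helper59_PRT.BOO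
import Pool.Agent.Helper52_PRT.LOW
import Pool.Agent.Helper23_PRT.BAS
import Pool.Agent.Helper11_PRT.REC
import Pool.Agent.Helper36_PRT.GRO
import Pool.Agent.Helper81_PRT.GRK
import Pool.Agent.Helper2_PRT.GRF
import Pool.Agent.Helper15_PRT.CHL
import Pool.Agent.Helper76_PRT.SLV
import Pool.Agent.Helper5_PRT.PLG
import Pool.Agent.Helper21_PRT.SDF
import Pool.Agent.Helper88_PRT.SEQ
import Pool.Agent.Helper27_PRT.HAT
import Pool.Agent.Helper2_PRT.UDT
import Pool.Agent.Helper47_PRT.UBD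
import Pool.Agent.Helper4_PRT.CRD
import Pool.Agent.Helper75_PRT.PAR
import Pool.Agent.Helper16_PRT.AVM
import Pool.Agent.Helper76_PRT.KNA
import Pool.Agent.Helper62_PRT.KNB
import Pool.Agent.Helper11_PRT.KNC
import Pool.Agent.Helper15_PRT.RHO
import Pool.Agent.Helper50_PRT.STR
import Pool.Agent.Helper81_PRT.FIN
import Pool.Agent.Helper7_PRT.RES
import Pool.Agent.PRT.StmtsD

/-!
# PRT: composition (helper16)
-/

set_option autoImplicit false

namespace Pool.Agent.PRT.H16C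

open Pool.Agent.PRT

theorem cWND : WndStmt := Pool.Agent.PRT.H1.wnd 

theorem cCRS : CrsStmt := Pool.Agent.PRT.H27.crs cWND

theorem cLBD : LbdStmt := Pool.Agent.PRT.H7.lbd 

theorem cLSP : LspStmt := Pool.Agent.PRT.H4.lsp cCRS cLBD

theorem cLOR : LorStmt := Pool.Agent.PRT.H5.lor cLBD cLSP

theorem cCHD : ChdStmt := Pool.Agent.PRT.H76.chd cLOR

theorem cFRB : FrbStmt := Pool.Agent.PRT.H50.frb cCHD

theorem cHMF : HmfStmt := Pool.Agent.PRT.H19.hmf 

theorem cMPV : MpvStmt := Pool.Agent.PRT.H8.mpv 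

theorem cDSP : DspStmt := Pool.Agent.PRT.H59.dsp cFRB cHMF cMPV

theorem cDFA : DfaStmt := Pool.Agent.PRT.H98.dfa 

theorem cDFB : DfbStmt := Pool.Agent.PRT.H14.dfb cDFA

theorem cRCP : RcpStmt := Pool.Agent.PRT.H7.rcp 

theorem cDTB : DtbStmt := Pool.Agent.PRT.H11.dtb 

theorem cINB : InbStmt := Pool.Agent.PRT.H94.inb cRCP cDTB

theorem cIPL : IplStmt := Pool.Agent.PRT.H19.ipl 

theorem cKGR : KgrStmt := Pool.Agent.PRT.H66.kgr 

theorem cNWT : NwtStmt := Pool.Agent.PRT.H41.nwt 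

theorem cMAT : MatStmt := Pool.Agent.PRT.H47.mat 

theorem cITG : ItgStmt := Pool.Agent.PRT.H53.itg 

theorem cDIF : DifStmt := Pool.Agent.PRT.H75.dif cITG

theorem cMSP : MspStmt := Pool.Agent.PRT.H72.msp 

theorem cMEA : MeaStmt := Pool.Agent.PRT.H23.mea cMSP

theorem cDEV : DevStmt := Pool.Agent.PRT.H53.dev 

theorem cPBD : PbdStmt := Pool.Agent.PRT.H7.pbd 

theorem cGLF : GlfStmt := Pool.Agent.PRT.H94.glf 

theorem cBOA : BoaStmt := Pool.Agent.PRT.H1.boa cDSP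

theorem cBOO : BooStmt := Pool.Agent.PRT.H59.boo cDSP cIPL cPBD cBOA

theorem cLOW : LowStmt := Pool.Agent.PRT.H52.low cNWT cMAT

theorem cBAS : BasStmt := Pool.Agent.PRT.H23B.bas 

theorem cREC : RecStmt := Pool.Agent.PRT.H11.recu 

theorem cGRO : GroStmt := Pool.Agent.PRT.H36.gro cLOW cBAS cREC

theorem cGRK : GrkStmt := Pool.Agent.PRT.H81.grk cKGR cGRO

theorem cGRF : GrfStmt := Pool.Agent.PRT.H2.grf cGLF cGRK

theorem cCHL : ChlStmt := Pool.Agent.PRT.H15.chl cKGR cPBD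

theorem cSLV : SlvStmt := Pool.Agent.PRT.H76.slv cPBD

theorem cPLG : PlgStmt := Pool.Agent.PRT.H5.plg 

theorem cSDF : SdfStmt := Pool.Agent.PRT.H21.sdf cMEA

theorem cSEQ : SeqStmt := Pool.Agent.PRT.H88.seq cDFB cGLF

theorem cHAT : HatStmt := Pool.Agent.PRT.H27H.hat cGLF

theorem cUDT : UdtStmt := Pool.Agent.PRT.H2.udt cDFB

theorem cUBD : UbdStmt := Pool.Agent.PRT.H47.ubd 

theorem cCRD : CrdStmt := Pool.Agent.PRT.H4.crd cBOO cGLF cGRF cSDF cSEQ cHAT cUDT cUBD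

theorem cPAR : ParStmt := Pool.Agent.PRT.H75P.par 

theorem cAVM : AvmStmt := Pool.Agent.PRT.H16.avm cPAR

theorem cKNA : KnaStmt := Pool.Agent.PRT.H76.kna cPAR cAVM

theorem cKNB : KnbStmt := Pool.Agent.PRT.H62.knb 

theorem cKNC : KncStmt := Pool.Agent.PRT.H11.knc cPAR cAVM cRCP

theorem cRHO : RhoStmt := Pool.Agent.PRT.H15.rho cDFA cRCP cDTB cINB cITG

theorem cSTR : StrStmt := Pool.Agent.PRT.H50.str cDFA cINB cDIF cMSP cKNA cKNB cKNC cRHO

theorem cFIN : FinStmt := Pool.Agent.PRT.H81.fin cCHL cCRD cSTR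

theorem cRES : ResStmt := Pool.Agent.PRT.H7.res cDEV cSLV cPLG cFIN

end Pool.Agent.PRT.H16C
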