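import Pool.Agent.PRT.StmtsD

/-!
# PRT: area preserving and determinant one (helper16)
-/

set_option autoImplicit false

namespace Pool.Agent.PRT.H16

open Set MeasureTheory
open scoped ContDiff ENNReal

theorem hasFDeriv {F : E → E} (hs : ContDiff ℝ ∞ F) (z : E) :
    HasFDerivAt F (fderiv ℝ F z) z :=
  ((hs.differentiable (by simp)) z).hasFDerivAt

theorem cont_det {F : E → E} (hs : ContDiff ℝ ∞ F) :
    Continuous fun z => (fderiv ℝ F z).det := by
  have h1 : Continuous (fderiv ℝ F) := hs.continuous_fderiv (by simp)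
  exact ContinuousLinearMap.continuous_det.comp h1

/-- determinant one implies area preserving -/
theorem mp_of_det {F G : E → E} (hs : ContDiff ℝ ∞ F)
    (h1 : ∀ z, G (F z) = z) (h2 : ∀ z, F (G z) = z) (hd : ∀ z, (fderiv ℝ F z).det = 1) :
    MeasurePreserving F volume volume := by
  refine ⟨hs.continuous.measurable, ?_⟩
  ext A hA
  rw [Measure.map_apply hs.continuous.measurable hA]
  have hinj : InjOn F (F ⁻¹' A) := (Function.LeftInverse.injective h1).injOn
  have hmeas : MeasurableSet (F ⁻¹' A) := hs.continuous.measurable hA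
  have h := lintegral_abs_det_fderiv_eq_addHaar_image volume hmeas
    (fun z _ => (hasFDeriv hs z).hasFDerivWithinAt) hinj
  rw [image_preimage_eq A (Function.RightInverse.surjective h2)] at h
  rw [← h]
  simp [hd]

/-- area preserving implies determinant one -/
theorem det_of_mp (itg : ItgStmt) {F G : E → E} (hs : ContDiff ℝ ∞ F) (hgs : ContDiff ℝ ∞ G)
    (h1 : ∀ z, G (F z) = z) (h2 : ∀ z, F (G z) = z) (hE : Eqv F)
    (hm : MeasurePreserving F volume volume) : ∀ z, (fderiv ℝ F z).det = 1 := by
  have hinj : Function.Injective F := Function.LeftInverse.injective h1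
  have hc := cont_det hs
  -- the integral of `|det|` over a set is the measure of the set
  have key : ∀ A : Set E, MeasurableSet A →
      ∫⁻ z in A, ENNReal.ofReal |(fderiv ℝ F z).det| = volume A := by
    intro A hA
    have h := lintegral_abs_det_fderiv_eq_addHaar_image volume hA
      (fun z _ => (hasFDeriv hs z).hasFDerivWithinAt) hinj.injOn
    rw [h]
    have hAm : MeasurableSet (F '' A) := by
      have : F '' A = G ⁻¹' A := by
        ext y
        constructor
        · rintro ⟨x, hx, rfl⟩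
          simpa [h1] using hx
        · intro hy
          exact ⟨G y, hy, h2 y⟩
      rw [this]
      exact hgs.continuous.measurable hA
    have h3 := hm.measure_preimage hAm.nullMeasurableSet
    rw [preimage_image_eq A hinj] at h3
    exact h3.symm
  have hae : (fun z => ENNReal.ofReal |(fderiv ℝ F z).det|) =ᵐ[volume] fun _ => 1 := by
    apply ae_eq_of_forall_setLIntegral_eq_of_sigmaFinite
    · exact (ENNReal.continuous_ofReal.comp (continuous_abs.comp hc)).measurable
    · exact measurable_const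
    · intro A hA _
      rw [key A hA]
      simp
  have habs : ∀ z, |(fderiv ℝ F z).det| = 1 := by
    have h4 : (fun z => ENNReal.ofReal |(fderiv ℝ F z).det|) = fun _ => 1 :=
      Continuous.ae_eq_iff_eq volume (ENNReal.continuous_ofReal.comp (continuous_abs.comp hc))
        continuous_const |>.1 hae
    intro z
    have h5 := congrFun h4 z
    have h6 := congrArg ENNReal.toReal h5
    rwa [ENNReal.toReal_ofReal (abs_nonneg _), ENNReal.toReal_one] at h6
  -- constant sign
  have hcases : (∀ z, (fderiv ℝ F z).det = 1) ∨ ∀ z, (fderiv ℝ F z).det = -1 := by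
    have hpre : IsPreconnected (univ : Set E) := isPreconnected_univ
    by_contra hcon
    rw [not_or, not_forall, not_forall] at hcon
    obtain ⟨⟨a, ha⟩, ⟨b, hb⟩⟩ := hcon
    have ha' : (fderiv ℝ F a).det = -1 := by
      rcases (abs_eq zero_le_one).1 (habs a) with h | h
      · exact absurd h ha
      · exact h
    have hb' : (fderiv ℝ F b).det = 1 := by
      rcases (abs_eq zero_le_one).1 (habs b) with h | h
      · exact h
      · exact absurd h hb
    have himg := hpre.image _ hc.continuousOn
    have hmem : (0 : ℝ) ∈ (fun z => (fderiv ℝ F z).det) '' univ := by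
      apply himg.Icc_subset ⟨a, mem_univ _, ha'⟩ ⟨b, mem_univ _, hb'⟩
      norm_num
    obtain ⟨c, -, hc0⟩ := hmem
    have hc1 : (fderiv ℝ F c).det = 0 := hc0
    have h7 := habs c
    rw [hc1, abs_zero] at h7
    norm_num at h7
  rcases hcases with h | h
  · exact h
  · exfalso
    have h8 := itg F hs hE
    simp only [h] at h8
    have h9 : (0 : ℝ) ≤ volume.real Q := measureReal_nonneg
    rw [setIntegral_const, smul_eq_mul] at h8
    nlinarith

/-- condition (A) from its short form -/
theorem hypA_of {F : E → E} {w : E} (hirr : ∀ (q : ℕ) (a b : ℤ), 1 ≤ q → (q : ℝ) • w ≠ iv a b)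
    (h : ∀ N : ℕ, ∃ (q : ℕ) (a b : ℤ) (L : ℝ), 1 ≤ q ∧ (∀ m ≤ q, ∀ z, ‖fderiv ℝ (F^[m]) z‖ ≤ L) ∧
      ‖(q : ℝ) • w - iv a b‖ * (q + L) ^ N ≤ 1) : HypA F w := by
  intro N L0
  -- `2 ^ M ≥ L0`
  obtain ⟨M, hM⟩ : ∃ M : ℕ, L0 ≤ 2 ^ M := by
    obtain ⟨M, hM⟩ := pow_unbounded_of_one_lt L0 (by norm_num : (1 : ℝ) < 2)
    exact ⟨M, hM.le⟩
  obtain ⟨q, a, b, L, hq, hL, hN⟩ := h ((M + 1) * N)
  have hq' : (1 : ℝ) ≤ q := by exact_mod_cast hq
  have hL1 : 1 ≤ L := by
    have h0 := hL 0 (Nat.zero_le _) 0
    have e : fderiv ℝ (F^[0]) (0 : E) = ContinuousLinearMap.id ℝ E := by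
      rw [Function.iterate_zero]
      exact fderiv_id
    rw [e, ContinuousLinearMap.norm_id] at h0
    exact h0
  have hs : (2 : ℝ) ≤ q + L := by linarith
  have hs1 : (1 : ℝ) ≤ q + L := by linarith
  have hle : (q : ℝ) + L ≤ (q + L) ^ (M + 1) := le_self_pow₀ hs1 (by omega)
  refine ⟨q, a, b, ((q : ℝ) + L) ^ (M + 1), hq, ?_, ?_, ?_, ?_, ?_⟩
  · calc L0 ≤ 2 ^ M := hM
      _ ≤ (q + L) ^ M := by gcongr
      _ ≤ (q + L) ^ (M + 1) := pow_le_pow_right₀ hs1 (Nat.le_succ _)
  · linarith
  · intro m hm z
    exact (hL m hm z).trans (by linarith)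
  · rw [norm_pos_iff, sub_ne_zero]
    exact hirr q a b hq
  · rw [← pow_mul]
    exact hN

end Pool.Agent.PRT.H16
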